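import Pool.Agent.BXS.Stmts

/-!
# Squad BXS (MP_be01ff_an), row STB: the sharp rate in boxes for strong solutions
-/

set_option autoImplicit false

namespace Pool.Agent.BXS.H44

open Set Filter Topology MeasureTheory InnerProductSpace Laplacian
open scoped InnerProductSpace ENNReal
open Pool.Agent.BE01F Pool.Agent.BEC

/-- Row STB. -/
theorem stb (hZBX : ZbxStmt) (hBFR : BfrStmt) (hLAP : LapStmt) (hGRD : GrdStmt) (hMEA : MeaStmt)
    (hCSE : CseStmt) (hLDF : LdfStmt) (hWEK : WekStmt) : StbStmt := by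
  intro N l a hl ha hR
  obtain ⟨w, hcl, c, C, hc, hrate⟩ := hR
  obtain ⟨ε, hε, hsm⟩ := hcl.smooth
  have h2 : ((2 * 1 : ℕ) : ℝ) = 2 := by norm_num
  rw [h2]
  let u : ℝ → E N → ℝ := fun t x => w t (WithLp.ofLp x)
  let U : Set (ℝ × E N) := {z | -ε < z.1}
  have hU : IsOpen U := isOpen_lt continuous_const continuous_fst
  have hUt : ∀ t : ℝ, 0 ≤ t → ∀ x : E N, (t, x) ∈ U := by
    intro t ht x
    show -ε < t
    linarith
  have hlin : ContDiff ℝ 2 (fun z : ℝ × E N => ((z.1, WithLp.ofLp z.2) : ℝ × (Fin N → ℝ))) :=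
    contDiff_fst.prodMk (PiLp.contDiff_ofLp.comp contDiff_snd)
  have hCD : ContDiffOn ℝ 2 (fun z : ℝ × E N => u z.1 z.2) U :=
    ContDiffOn.comp (g := fun q : ℝ × (Fin N → ℝ) => w q.1 q.2) hsm hlin.contDiffOn
      (fun z hz => hz)
  have hwt : ∀ t : ℝ, 0 ≤ t → ContDiff ℝ 2 (w t) := by
    intro t ht
    rw [contDiff_iff_contDiffAt]
    intro y
    have hmem : {q : ℝ × (Fin N → ℝ) | -ε < q.1} ∈ 𝓝 ((t, y) : ℝ × (Fin N → ℝ)) := by
      apply (isOpen_lt continuous_const continuous_fst).mem_nhds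
      show -ε < t
      linarith
    have h1 : ContDiffAt ℝ 2 (fun q : ℝ × (Fin N → ℝ) => w q.1 q.2) (t, y) :=
      hsm.contDiffAt hmem
    exact ContDiffAt.comp (g := fun q : ℝ × (Fin N → ℝ) => w q.1 q.2)
      (f := fun z : Fin N → ℝ => ((t, z) : ℝ × (Fin N → ℝ))) y h1
      (contDiffAt_const.prodMk contDiffAt_id)
  obtain ⟨hsec, -, -, -, -, -, hzero⟩ := hCSE N U u hU hCD
  obtain ⟨hO, hB, hclos, hfr⟩ := hBFR N l hl
  have hbd : ∀ t : ℝ, 0 ≤ t → ∀ x : E N, x ∈ Bd l → u t x = 0 := by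
    intro t ht x hx
    exact hcl.bdy t ht (WithLp.ofLp x) (hfr x hx)
  have key : ∀ t : ℝ, 0 ≤ t → ∀ f : E N → ℝ, ContDiffOn ℝ 1 f {x : E N | (t, x) ∈ U} →
      (∀ x : E N, x ∈ Bd l → f x = 0) → H10 (Bx l) f (gradient f) := by
    intro t ht f hf h0
    exact hZBX N l {x : E N | (t, x) ∈ U} f hl (hsec t).1 (fun x _ => hUt t ht x) hf h0
  have hC2 : C2 (Bx l) u := ⟨U, hU, fun z hz => hUt z.1 hz.1 z.2, hCD⟩
  have hldf := hLDF N (Bx l) u hO hB hC2
  have hE : ∀ t : ℝ, 0 ≤ t → energy (Bx l) (vt u) (fun t x => gradient (u t) x) t =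
      Pool.Agent.BOX.eng l w t := by
    intro t ht
    unfold energy intg vol Pool.Agent.BOX.eng
    rw [← hMEA N l (fun x => Pool.Agent.BOX.dt w t x ^ 2 + ∑ i, Pool.Agent.BOX.dx i (w t) x ^ 2)]
    have hfun : (fun x : E N => vt u t x ^ 2 + ‖gradient (u t) x‖ ^ 2) =
        fun x : E N => Pool.Agent.BOX.dt w t (WithLp.ofLp x) ^ 2 +
          ∑ i, Pool.Agent.BOX.dx i (w t) (WithLp.ofLp x) ^ 2 := by
      funext x
      have hg := hGRD N (w t) x ((hwt t ht).differentiable (by norm_num) _)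
      show vt u t x ^ 2 + ‖gradient (fun y : E N => w t (WithLp.ofLp y)) x‖ ^ 2 = _
      rw [hg]
      rfl
    rw [hfun]
  have hpde : ∀ (t : ℝ) (x : E N), 0 < t → x ∈ Bx l →
      iteratedDeriv 2 (fun s => u s x) t - (Δ (u t)) x +
        a * (|deriv (fun s => u s x) t| ^ (2 : ℝ) * deriv (fun s => u s x) t) = 0 := by
    intro t x ht hx
    have hL := hLAP N (w t) x (hwt t ht.le).contDiffAt
    have he := hcl.eq t ht.le (WithLp.ofLp x) hx
    have hL' : (Δ (u t)) x = ∑ i, Pool.Agent.BOX.dxx i (w t) (WithLp.ofLp x) := hL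
    rw [hL', ← he]
    show iteratedDeriv 2 (fun s => w s (WithLp.ofLp x)) t -
        ∑ i, Pool.Agent.BOX.dxx i (w t) (WithLp.ofLp x) +
        a * (|deriv (fun s => w s (WithLp.ofLp x)) t| ^ (2 : ℝ) *
          deriv (fun s => w s (WithLp.ofLp x)) t) =
      iteratedDeriv 2 (fun s => w s (WithLp.ofLp x)) t -
        ∑ i, Pool.Agent.BOX.dxx i (w t) (WithLp.ofLp x) +
        a * |deriv (fun s => w s (WithLp.ofLp x)) t| ^ (2 : ℝ) *
          deriv (fun s => w s (WithLp.ofLp x)) t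
    ring
  have hcC : c ≤ C := by
    have h0 := hrate 0 le_rfl
    simp only [add_zero, Real.one_rpow, mul_one] at h0
    exact h0.1.trans h0.2
  refine ⟨u, vt u, wt u, fun t x => gradient (u t) x, ?_, c, C, hc, hcC, ?_⟩
  · refine ⟨?_, ?_, ?_, ?_, ?_, ?_, ?_, ?_, ?_⟩
    · intro t ht
      exact key t ht (u t) ((hsec t).2.1.of_le (by norm_num)) (hbd t ht)
    · intro t ht
      refine ⟨gradient (vt u t), key t ht (vt u t) (hsec t).2.2 ?_⟩
      intro x hx
      exact hzero x (fun s hs => hbd s hs x hx) t ht (hUt t ht x)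
    · exact fun t ht => (hldf t ht).2.2.2.1
    · exact fun t ht => (hldf t ht).1
    · exact fun t ht => (hldf t ht).2.1
    · exact fun t ht => (hldf t ht).2.2.1
    · exact fun t ht => (hldf t ht).2.2.2.2.2
    · exact fun t ht => (hldf t ht).2.2.2.2.1
    · exact fun t ht => hWEK N (Bx l) u a 2 hO hB hC2 (by norm_num) hpde t ht
  · intro t ht
    rw [hE t ht]
    have h1 : (-(2 / 2) : ℝ) = -1 := by norm_num
    rw [h1]
    exact hrate t ht

end Pool.Agent.BXS.H44
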